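import Pool.Agent.H809Z.Ball.Basic

open scoped Topology ENNReal InnerProductSpace
open Filter Metric Set MeasureTheory

namespace Pool.Agent.H809Z.Ball

namespace Bell

variable {n : ℕ}

/-- coordinate vectors -/
noncomputable def ev (k : Fin n) : En n := EuclideanSpace.single k 1

lemma det_eq (A : En n →L[ℂ] En n) :
    A.det = Matrix.det (Matrix.of fun i j => A (ev j) i) := by
  rw [ContinuousLinearMap.det, ← LinearMap.det_toMatrix (EuclideanSpace.basisFun (Fin n) ℂ).toBasis]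
  congr 1

lemma diff_prod {U : Set (En n)} (s : Finset (Fin n)) (g : Fin n → En n → ℂ)
    (hg : ∀ i, DifferentiableOn ℂ (g i) U) : DifferentiableOn ℂ (fun w => ∏ i ∈ s, g i w) U := by
  induction s using Finset.induction_on with
  | empty => simp
  | insert a s ha ih =>
    simp only [Finset.prod_insert ha]
    exact (hg a).mul ih

lemma image_eq (S : St n) : S.φ '' ball 0 1 = S.Ω := by
  ext z
  constructor
  · rintro ⟨w, hw, rfl⟩
    exact S.mφ hw
  · intro hz
    exact ⟨S.F z, S.mF hz, S.φF z hz⟩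

lemma injOn (S : St n) : InjOn S.φ (ball 0 1) := fun a ha b hb h => by
  rw [← S.Fφ a ha, h, S.Fφ b hb]

lemma hasFD (S : St n) : ∀ w ∈ ball (0 : En n) 1,
    HasFDerivWithinAt S.φ ((fderiv ℂ S.φ w).restrictScalars ℝ) (ball 0 1) w := fun _ hw =>
  ((S.hφ.differentiableAt (isOpen_ball.mem_nhds hw)).hasFDerivAt.restrictScalars ℝ).hasFDerivWithinAt

lemma abs_det (f : En n → En n) (w : En n) :
    |((fderiv ℂ f w).restrictScalars ℝ).det| = ‖jac f w‖ ^ 2 := by
  rw [det_real, abs_of_nonneg (Complex.normSq_nonneg _), Complex.normSq_eq_norm_sq]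
  rfl

lemma integral_cv (S : St n) (g : En n → ℂ) :
    ∫ z in S.Ω, g z = ∫ w in ball (0 : En n) 1, (‖jac S.φ w‖ ^ 2 : ℝ) • g (S.φ w) := by
  rw [← image_eq S,
    integral_image_eq_integral_abs_det_fderiv_smul volume measurableSet_ball (hasFD S) (injOn S)]
  simp only [abs_det]

lemma integrableOn_cv (S : St n) (g : En n → ℂ) :
    IntegrableOn g S.Ω ↔
      IntegrableOn (fun w => (‖jac S.φ w‖ ^ 2 : ℝ) • g (S.φ w)) (ball (0 : En n) 1) := by
  rw [← image_eq S, integrableOn_image_iff_integrableOn_abs_det_fderiv_smul volume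
    measurableSet_ball (hasFD S) (injOn S)]
  simp only [abs_det]

end Bell

theorem jac_diff {n : ℕ} {U : Set (En n)} (hU : IsOpen U) {f : En n → En n}
    (hf : DifferentiableOn ℂ f U) : DifferentiableOn ℂ (jac f) U := by
  have h1 : ∀ i j : Fin n, DifferentiableOn ℂ (fun w => fderiv ℂ f w (Bell.ev j) i) U := by
    intro i j
    have h2 : DifferentiableOn ℂ ((EuclideanSpace.proj i : En n →L[ℂ] ℂ) ∘ f) U :=
      (EuclideanSpace.proj i : En n →L[ℂ] ℂ).differentiable.comp_differentiableOn hf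
    refine (Pool.Agent.Helper853.Bk.differentiableOn_fderiv_apply hU h2 (Bell.ev j)).congr
      fun w hw => ?_
    have h3 := (EuclideanSpace.proj i : En n →L[ℂ] ℂ).hasFDerivAt.comp w
      (hf.differentiableAt (hU.mem_nhds hw)).hasFDerivAt
    rw [h3.fderiv]
    simp
  have h4 : jac f = fun w => ∑ σ : Equiv.Perm (Fin n),
      ((Equiv.Perm.sign σ : ℤ) : ℂ) * ∏ i, fderiv ℂ f w (Bell.ev i) (σ i) := by
    funext w
    rw [jac, Bell.det_eq, Matrix.det_apply']
    simp
  rw [h4]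
  refine DifferentiableOn.fun_sum fun σ _ => DifferentiableOn.const_mul ?_ _
  exact Bell.diff_prod _ _ fun i => h1 _ _

theorem jac_mul {n : ℕ} (S : St n) :
    ∀ w ∈ ball (0 : En n) 1, jac S.F (S.φ w) * jac S.φ w = 1 := by
  intro w hw
  have h1 := (S.hφ.differentiableAt (isOpen_ball.mem_nhds hw)).hasFDerivAt
  have h2 := (S.hF.differentiableAt (S.isOpen.mem_nhds (S.mφ hw))).hasFDerivAt
  have h3 := h2.comp w h1
  have h4 : HasFDerivAt (S.F ∘ S.φ) (ContinuousLinearMap.id ℂ (En n)) w := by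
    refine (hasFDerivAt_id w).congr_of_eventuallyEq ?_
    filter_upwards [isOpen_ball.mem_nhds hw] with y hy using S.Fφ y hy
  have h5 := h3.unique h4
  have h6 := congrArg ContinuousLinearMap.det h5
  have h7 := LinearMap.det_comp (fderiv ℂ S.F (S.φ w) : En n →ₗ[ℂ] En n)
    (fderiv ℂ S.φ w : En n →ₗ[ℂ] En n)
  have h8 : (ContinuousLinearMap.id ℂ (En n)).det = 1 := LinearMap.det_id
  exact h7.symm.trans (h6.trans h8)

theorem jac_int {n : ℕ} (S : St n) : IntegrableOn (jac S.φ) (ball 0 1) := by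
  have h1 : IntegrableOn (fun _ : En n => (1 : ℂ)) S.Ω :=
    integrableOn_const S.bdd.measure_lt_top.ne
  rw [Bell.integrableOn_cv] at h1
  have h2 : IntegrableOn (fun _ : En n => (1 : ℝ)) (ball 0 1) :=
    integrableOn_const measure_ball_lt_top.ne
  refine (h2.add h1.norm).mono'
    ((jac_diff isOpen_ball S.hφ).continuousOn.aestronglyMeasurable measurableSet_ball)
    (ae_of_all _ fun w => ?_)
  simp only [Pi.add_apply, norm_smul, norm_one, mul_one, norm_pow, norm_norm]
  nlinarith [sq_nonneg (‖jac S.φ w‖ - 1)]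

namespace Bell

variable {n : ℕ}

lemma dz_rho (S : St n) (z v : En n) :
    dz (fun y => (S.ρ y : ℂ)) z v = cx (fderiv ℝ S.ρ z) v / 2 := by
  have h := (Complex.ofRealCLM.hasFDerivAt.comp z (S.diff z).hasFDerivAt).fderiv
  have e : (fun y => (S.ρ y : ℂ)) = Complex.ofRealCLM ∘ S.ρ := rfl
  rw [dz, e, h, cx_apply]
  simp

lemma contDiff_dz_rho (S : St n) (v : En n) :
    ContDiff ℝ 1 fun z => dz (fun y => (S.ρ y : ℂ)) z v := by
  have h : ∀ u : En n, ContDiff ℝ 1 fun z => ((fderiv ℝ S.ρ z u : ℝ) : ℂ) := fun u =>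
    Complex.ofRealCLM.contDiff.comp (S.contDiff_fderiv.clm_apply contDiff_const)
  simp only [dz_rho, cx_apply]
  exact ((h v).sub (contDiff_const.mul (h _))).div_const 2

lemma continuous_dz {g : En n → ℂ} (hg : ContDiff ℝ 1 g) (v : En n) :
    Continuous fun z => dz g z v := by
  have h : ∀ u : En n, Continuous fun z => fderiv ℝ g z u := fun u =>
    (hg.continuous_fderiv (by norm_num)).clm_apply continuous_const
  unfold dz
  exact ((h v).sub (continuous_const.mul (h _))).div_const 2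

/-- the normalising weight -/
noncomputable def wt (S : St n) (z : En n) : ℂ :=
  ∑ k, dz (fun y => (S.ρ y : ℂ)) z (ev k) * (starRingEnd ℂ) (dz (fun y => (S.ρ y : ℂ)) z (ev k)) +
    (S.ρ z : ℂ) * (S.ρ z : ℂ)

lemma contDiff_conj {g : En n → ℂ} (hg : ContDiff ℝ 1 g) :
    ContDiff ℝ 1 fun z => (starRingEnd ℂ) (g z) :=
  Complex.conjCLE.contDiff.comp hg

lemma contDiff_rho (S : St n) : ContDiff ℝ 1 fun z => (S.ρ z : ℂ) :=
  Complex.ofRealCLM.contDiff.comp (S.hρ.of_le (by norm_num))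

lemma contDiff_wt (S : St n) : ContDiff ℝ 1 (wt S) := by
  unfold wt
  exact (ContDiff.sum fun k _ => (contDiff_dz_rho S _).mul (contDiff_conj (contDiff_dz_rho S _))).add
    ((contDiff_rho S).mul (contDiff_rho S))

lemma wt_ne (S : St n) (z : En n) : wt S z ≠ 0 := by
  intro h
  have e : wt S z = ((∑ k, Complex.normSq (dz (fun y => (S.ρ y : ℂ)) z (ev k)) +
      S.ρ z * S.ρ z : ℝ) : ℂ) := by
    simp only [wt, Complex.mul_conj]
    push_cast
    rfl
  rw [e, Complex.ofReal_eq_zero] at h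
  have h1 : 0 ≤ ∑ k, Complex.normSq (dz (fun y => (S.ρ y : ℂ)) z (ev k)) :=
    Finset.sum_nonneg fun k _ => Complex.normSq_nonneg _
  have h2 := mul_self_nonneg (S.ρ z)
  have h3 : S.ρ z = 0 := mul_self_eq_zero.mp (by linarith)
  have h4 : ∑ k, Complex.normSq (dz (fun y => (S.ρ y : ℂ)) z (ev k)) = 0 := by linarith
  rw [Finset.sum_eq_zero_iff_of_nonneg fun k _ => Complex.normSq_nonneg _] at h4
  apply S.hd z h3
  rw [← norm_eq_zero, ← norm_cx, norm_eq_zero]
  have h5 : ∀ k, cx (fderiv ℝ S.ρ z) (ev k) = 0 := by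
    intro k
    have := h4 k (Finset.mem_univ k)
    rw [Complex.normSq_eq_zero, dz_rho] at this
    simpa using this
  apply ContinuousLinearMap.coe_injective
  apply (EuclideanSpace.basisFun (Fin n) ℂ).toBasis.ext
  intro k
  simpa [ev] using h5 k

lemma exists_decomp (S : St n) {f : En n → ℂ} (hf : ContDiff ℝ 1 f) :
    ∃ (g : Fin n → En n → ℂ) (χ : En n → ℂ), (∀ k, ContDiff ℝ 1 (g k)) ∧ Continuous χ ∧
      ∀ z, ∑ k, (dz (fun y => (S.ρ y : ℂ)) z (ev k) * g k z + (S.ρ z : ℂ) * dz (g k) z (ev k)) =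
        f z - S.ρ z * χ z := by
  have hw : ContDiff ℝ 1 fun z => (wt S z)⁻¹ := (contDiff_wt S).inv (wt_ne S)
  set g : Fin n → En n → ℂ := fun k z =>
    f z * (starRingEnd ℂ) (dz (fun y => (S.ρ y : ℂ)) z (ev k)) * (wt S z)⁻¹ with hg
  have hgc : ∀ k, ContDiff ℝ 1 (g k) := fun k =>
    (hf.mul (contDiff_conj (contDiff_dz_rho S _))).mul hw
  refine ⟨g, fun z => f z * S.ρ z * (wt S z)⁻¹ - ∑ k, dz (g k) z (ev k), hgc, ?_, fun z => ?_⟩
  · exact ((hf.continuous.mul (contDiff_rho S).continuous).mul hw.continuous).sub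
      (continuous_finsetSum _ fun k _ => continuous_dz (hgc k) _)
  · have h1 : ∑ k, dz (fun y => (S.ρ y : ℂ)) z (ev k) * g k z =
        f z * (wt S z - (S.ρ z : ℂ) * (S.ρ z : ℂ)) * (wt S z)⁻¹ := by
      rw [wt, add_sub_cancel_right, Finset.mul_sum, Finset.sum_mul]
      refine Finset.sum_congr rfl fun k _ => ?_
      simp only [hg]
      rw [← wt]
      ring
    rw [Finset.sum_add_distrib, h1, ← Finset.mul_sum]
    have := wt_ne S z
    field_simp
    ring

lemma integrableOn_conj {h : En n → ℂ} {s : Set (En n)} (hh : IntegrableOn h s) :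
    IntegrableOn (fun z => (starRingEnd ℂ) (h z)) s :=
  (Complex.conjCLE : ℂ →L[ℝ] ℂ).integrable_comp hh

lemma sub_le (S : St n) : S.Ω ⊆ {z | S.ρ z ≤ 0} := fun _ hz => (S.mem_iff.mp hz).le

lemma orth (S : St n) (hI : IBP n) {f : En n → ℂ} (hf : ContDiff ℝ 1 f) :
    ∃ χ : En n → ℂ, Continuous χ ∧ ∀ h : En n → ℂ, DifferentiableOn ℂ h S.Ω → IntegrableOn h S.Ω →
      ∫ z in S.Ω, (f z - S.ρ z * χ z) * (starRingEnd ℂ) (h z) = 0 := by
  obtain ⟨g, χ, hg, hχ, he⟩ := exists_decomp S hf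
  refine ⟨χ, hχ, fun h h1 h2 => ?_⟩
  simp only [← he, Finset.sum_mul]
  rw [integral_finsetSum]
  · refine Finset.sum_eq_zero fun k _ => ?_
    have := hI S.ρ (g k) h (ev k) (S.hρ.of_le (by norm_num)) (S.hΩ ▸ S.bdd)
      (fun z _ => (hg k).contDiffAt) (S.hΩ ▸ h1) (S.hΩ ▸ h2)
    rw [S.hΩ]
    exact this
  · intro k _
    refine IntegrableOn.continuousOn_mul_of_subset (Continuous.continuousOn ?_)
      (integrableOn_conj h2) S.compact_le S.isOpen.measurableSet (sub_le S)
    exact ((contDiff_dz_rho S _).continuous.mul (hg k).continuous).add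
      ((contDiff_rho S).continuous.mul (continuous_dz (hg k) _))

lemma int_mul (S : St n) {u : En n → ℂ} (hu : Continuous u) :
    IntegrableOn (fun w => jac S.φ w * u (S.φ w)) (ball 0 1) := by
  obtain ⟨C, hC⟩ := S.compact_le.exists_bound_of_continuousOn hu.continuousOn
  refine ((jac_int S).norm.mul_const C).mono'
    (((jac_diff isOpen_ball S.hφ).continuousOn.mul
      (hu.comp_continuousOn S.hφ.continuousOn)).aestronglyMeasurable measurableSet_ball) ?_
  filter_upwards [ae_restrict_mem measurableSet_ball] with w hw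
  rw [norm_mul]
  exact mul_le_mul_of_nonneg_left (hC _ (sub_le S (S.mφ hw))) (norm_nonneg _)

lemma ker_ne {a w : En n} (ha : ‖a‖ < 1) (hw : ‖w‖ ≤ 1) : (1 - ⟪a, w⟫_ℂ) ^ (n + 1) ≠ 0 :=
  pow_ne_zero _ (norm_pos_iff.mp (dd_pos hw ha))

lemma ker_ne' {a w : En n} (ha : ‖a‖ < 1) (hw : ‖w‖ ≤ 1) : (1 - ⟪w, a⟫_ℂ) ^ (n + 1) ≠ 0 := by
  have := dd_pos hw ha
  rw [dd_comm] at this
  exact pow_ne_zero _ (norm_pos_iff.mp this)

lemma continuousOn_ker {a : En n} (ha : ‖a‖ < 1) : ContinuousOn (ker a) (closedBall 0 1) := by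
  unfold ker
  exact ContinuousOn.inv₀ (Continuous.continuousOn (by fun_prop))
    fun w hw => ker_ne' ha (mem_closedBall_zero_iff.mp hw)

lemma int_ker {a : En n} (ha : ‖a‖ < 1) {G : En n → ℂ} (hG : IntegrableOn G (ball 0 1)) :
    IntegrableOn (fun w => G w * ker a w) (ball 0 1) :=
  hG.mul_continuousOn_of_subset (continuousOn_ker ha) measurableSet_ball
    (isCompact_closedBall _ _) ball_subset_closedBall

/-- the transported kernel -/
noncomputable def tk (S : St n) (a z : En n) : ℂ := jac S.F z * ((1 - ⟪a, S.F z⟫_ℂ) ^ (n + 1))⁻¹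

lemma tk_diff (S : St n) {a : En n} (ha : ‖a‖ < 1) : DifferentiableOn ℂ (tk S a) S.Ω := by
  have h1 : DifferentiableOn ℂ (fun z => ⟪a, S.F z⟫_ℂ) S.Ω :=
    (innerSL ℂ a).differentiable.comp_differentiableOn S.hF
  unfold tk
  exact (jac_diff S.isOpen S.hF).mul (((differentiableOn_const _).sub h1).pow _ |>.inv
    fun z hz => ker_ne ha (mem_ball_zero_iff.mp (S.mF hz)).le)

lemma tk_conj (S : St n) (a : En n) {w : En n} (hw : w ∈ ball (0 : En n) 1) :
    ((‖jac S.φ w‖ ^ 2 : ℝ) : ℂ) * (starRingEnd ℂ) (tk S a (S.φ w)) = jac S.φ w * ker a w := by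
  have h1 := congrArg (starRingEnd ℂ) (jac_mul S w hw)
  rw [map_mul, map_one] at h1
  rw [← Complex.normSq_eq_norm_sq, ← Complex.mul_conj, tk, S.Fφ w hw, ker, map_mul, map_inv₀,
    map_pow, map_sub, map_one, inner_conj_symm]
  linear_combination (jac S.φ w * ((1 - ⟪w, a⟫_ℂ) ^ (n + 1))⁻¹) * h1

lemma tk_int (S : St n) {a : En n} (ha : ‖a‖ < 1) : IntegrableOn (tk S a) S.Ω := by
  rw [integrableOn_cv]
  refine (integrableOn_conj (int_ker ha (jac_int S))).congr_fun (fun w hw => ?_) measurableSet_ball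
  simp only
  rw [← tk_conj S a hw, map_mul, Complex.conj_ofReal, Complex.conj_conj, Complex.real_smul]

end Bell

theorem bell {n : ℕ} (S : St n) (hI : IBP n) (hR : Repro n) (hH : S.Hopf) (c : ℂ)
    (l : En n →L[ℂ] ℂ) : Rep (jac S.φ) fun a => jac S.φ a * (c + l (S.φ a)) := by
  have hf : ContDiff ℝ 1 fun z : En n => c + l z :=
    contDiff_const.add (l.restrictScalars ℝ).contDiff
  obtain ⟨χ, hχ, ho⟩ := Bell.orth S hI hf
  obtain ⟨C, hC, hH⟩ := hH
  obtain ⟨B, hB⟩ := S.compact_le.exists_bound_of_continuousOn hχ.continuousOn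
  set V : ℝ := (volume (ball (0 : En n) 1)).toReal with hV
  have hV0 : 0 < V :=
    ENNReal.toReal_pos (measure_ball_pos _ _ one_pos).ne' measure_ball_lt_top.ne
  have hρχ : Continuous fun z => (S.ρ z : ℂ) * χ z := (Bell.contDiff_rho S).continuous.mul hχ
  have i1 := Bell.int_mul S hf.continuous
  have i2 := Bell.int_mul S hρχ
  refine ⟨V⁻¹ * (max B 0 * C), fun w => ((V⁻¹ : ℝ) : ℂ) * (jac S.φ w * (S.ρ (S.φ w) * χ (S.φ w))),
    by positivity, i2.aestronglyMeasurable.const_mul _, fun w hw => ?_, fun a ha => ?_⟩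
  · have h1 := S.mem_iff.mp (S.mφ hw)
    have h2 : ‖χ (S.φ w)‖ ≤ max B 0 := (hB _ h1.le).trans (le_max_left _ _)
    have h3 := hH w hw
    rw [norm_mul, norm_mul, norm_mul, Complex.norm_real, Complex.norm_real,
      Real.norm_of_nonneg (inv_pos.mpr hV0).le, Real.norm_of_nonpos h1.le]
    calc V⁻¹ * (‖jac S.φ w‖ * (-S.ρ (S.φ w) * ‖χ (S.φ w)‖))
        ≤ V⁻¹ * (‖jac S.φ w‖ * (C * (1 - ‖w‖) * max B 0)) := by
          have : 0 ≤ C * (1 - ‖w‖) := by linarith
          gcongr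
      _ = _ := by ring
  · have ha' := mem_ball_zero_iff.mp ha
    have h1 := ho _ (Bell.tk_diff S ha') (Bell.tk_int S ha')
    rw [Bell.integral_cv] at h1
    have h2 : ∫ w in ball (0 : En n) 1, (jac S.φ w * (c + l (S.φ w)) * ker a w -
        jac S.φ w * (S.ρ (S.φ w) * χ (S.φ w)) * ker a w) = 0 := by
      rw [← h1]
      refine setIntegral_congr_fun measurableSet_ball fun w hw => ?_
      have := Bell.tk_conj S a hw
      simp only [Complex.real_smul]
      linear_combination (-(c + l (S.φ w) - S.ρ (S.φ w) * χ (S.φ w))) * this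
    rw [integral_sub (Bell.int_ker ha' i1) (Bell.int_ker ha' i2), sub_eq_zero] at h2
    have h3 := hR (fun w => jac S.φ w * (c + l (S.φ w)))
      ((jac_diff isOpen_ball S.hφ).mul ((differentiableOn_const c).add
        (l.differentiable.comp_differentiableOn S.hφ))) i1 a ha
    rw [bT, h2, ← hV] at h3
    simp only [bT, mul_assoc]
    rw [integral_const_mul]
    simp only [← mul_assoc] at h3 ⊢
    rw [h3]
    have : (V : ℂ) ≠ 0 := Complex.ofReal_ne_zero.mpr hV0.ne'
    push_cast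
    field_simp

end Pool.Agent.H809Z.Ball
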